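import Pool.Agent.Lib_helper92.KSA.All
import Pool.Agent.Lib_helper24.ABS.Endgame
import Pool.Agent.Lib_helper92.KSA.FinB

/-!
# Zeros near the critical line, Hecke L-functions of number fields: definitions (MP_77948b_nt)
-/

namespace Pool.Agent.NL

open NumberField NumberField.InfinitePlace NumberField.Units Complex MeasureTheory Filter Topology
open Pool.Agent.HZ Pool.Agent.AS Pool.Agent.KS
open scoped ENNReal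

/-! ### Definitions of the final statement -/

/-- The number of zeros `ρ` of `Λ`, counted with multiplicity, with `|Im ρ| ≤ T` and
`|Re ρ - 1/2| ≥ δ`. -/
noncomputable def offLine (Λ : ℂ → ℂ) (T δ : ℝ) : ℝ≥0∞ :=
  ∑' ρ : {ρ : ℂ // |ρ.im| ≤ T ∧ δ ≤ |ρ.re - 1 / 2|}, (analyticOrderNatAt Λ ρ.1 : ℝ≥0∞)

/-! ### Auxiliary definitions -/

/-- The zeros with `Re ρ ≥ 1/2 + δ`. -/
noncomputable def offR (Λ : ℂ → ℂ) (T δ : ℝ) : ℝ≥0∞ :=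
  ∑' ρ : {ρ : ℂ // |ρ.im| ≤ T ∧ 1 / 2 + δ ≤ ρ.re}, (analyticOrderNatAt Λ ρ.1 : ℝ≥0∞)

/-- The zeros with `Re ρ ≤ 1/2 - δ`. -/
noncomputable def offL (Λ : ℂ → ℂ) (T δ : ℝ) : ℝ≥0∞ :=
  ∑' ρ : {ρ : ℂ // |ρ.im| ≤ T ∧ ρ.re ≤ 1 / 2 - δ}, (analyticOrderNatAt Λ ρ.1 : ℝ≥0∞)

section semigroup

variable {P : Type}

/-- The flat-top coefficients `α(g) (2 (1 - log N g/L)₊ - (1 - 2 log N g/L)₊)`. -/
noncomputable def be2 (N : P → ℕ) (L : ℝ) : MvPowerSeries P ℝ :=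
  fun g => 2 * be N L g - be N (L / 2) g

/-- `1 * β₂ * β₂`. -/
noncomputable def bb2 (N : P → ℕ) (L : ℝ) : MvPowerSeries P ℝ := one * (be2 N L * be2 N L)

end semigroup

variable {K : Type} [Field K] [NumberField K]

/-- `β₂(g) ψ(g) N g^{-1/2}`. -/
noncomputable def bK2 (L : ℝ) (ψ : Ideal (𝓞 K) →* ℂ) (g : PK K →₀ ℕ) : ℂ :=
  (be2 (NK K) L g : ℂ) * ψ (IK g) * (((√(nm (NK K) g : ℝ))⁻¹ : ℝ) : ℂ)

/-- The density of `Λ M₂²` (up to the constant `C₀` of `mellin_kint`). -/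
noncomputable def DK2 (L : ℝ) (κ : InfinitePlace K → ℤ) (lam : InfinitePlace K → ℝ)
    (ψ : Ideal (𝓞 K) →* ℂ) (u : ℝ) : ℂ :=
  ∑ k ∈ ball (NK K) (Real.exp L), ∑ l ∈ ball (NK K) (Real.exp L),
    bK2 L ψ k * bK2 L ψ l * Dser ψ (Gf κ lam) (u + (lK k + lK l))

/-- The density of `Λ M₂² - γ`. -/
noncomputable def hh (L : ℝ) (κ : InfinitePlace K → ℤ) (lam : InfinitePlace K → ℝ)
    (ψ : Ideal (𝓞 K) →* ℂ) (u : ℝ) : ℂ := DK2 L κ lam ψ u - gK κ lam u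

/-- The mollifier `M₂(s)`. -/
noncomputable def Mo (L : ℝ) (ψ : Ideal (𝓞 K) →* ℂ) (s : ℂ) : ℂ :=
  ∑ k ∈ ball (NK K) (Real.exp L), bK2 L ψ k * cexp (-((s - 1 / 2) * lK k))

/-- The transform `∫ h(u) e^{(s-1/2)u} du`. -/
noncomputable def HH (L : ℝ) (κ : InfinitePlace K → ℤ) (lam : InfinitePlace K → ℝ)
    (ψ : Ideal (𝓞 K) →* ℂ) (s : ℂ) : ℂ := ∫ u : ℝ, hh L κ lam ψ u * cexp ((s - 1 / 2) * u)

/-- What is assumed about a family: primitive characters `χ ∈ E` modulo `𝔮` with Hecke characters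
`ψ_χ` above them. -/
structure Fam (𝔮 : Ideal (𝓞 K)) (κ : InfinitePlace K → ℤ) (E : Finset (MulChar (𝓞 K ⧸ 𝔮) ℂ))
    (lam : MulChar (𝓞 K ⧸ 𝔮) ℂ → InfinitePlace K → ℝ)
    (ψ : MulChar (𝓞 K ⧸ 𝔮) ℂ → (Ideal (𝓞 K) →* ℂ)) : Prop where
  bot : 𝔮 ≠ ⊥
  top : 𝔮 ≠ ⊤
  real : ∀ w : InfinitePlace K, w.IsReal → κ w = 0 ∨ κ w = 1
  prim : ∀ χ ∈ E, IsPrim 𝔮 χ
  sum : ∀ χ ∈ E, ∑ w, lam χ w = 0
  hecke : ∀ χ ∈ E, IsHecke 𝔮 κ (lam χ) χ (ψ χ)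

end Pool.Agent.NL
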